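import Pool.Agent.X72.JerkData

/-!
# The convex relaxation of the jerk-constrained speed planning problem is not exact
-/

namespace Pool.Agent.Results.MP_6d6828_an.RelaxationNotExact

open Finset Pool.Agent.X72.Jerk
open scoped ENNReal

/-- `h / √x`, with the convention `h / √0 = +∞` -/
noncomputable def frac (h x : ℝ) : ℝ≥0∞ := if x = 0 then ⊤ else ENNReal.ofReal (h / √x)

/-- `Δ w_i` -/
noncomputable def delta (ρ h J : ℝ) (w : ℕ → ℝ) (i : ℕ) : ℝ :=
  (w (i - 1) - (2 + ρ) * w i + w (i + 1)) / (h * J)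

/-- the set `C`; a vector `(w_1, ..., w_n)` is given by the values at `1, ..., n` of a function on
`ℕ`, the other values play no role -/
def C (n : ℕ) (h A : ℝ) (wmax : ℕ → ℝ) : Set (ℕ → ℝ) :=
  {w | w 1 = 0 ∧ w n = 0 ∧ (∀ i ∈ Icc 2 (n - 1), 0 ≤ w i ∧ w i ≤ wmax i) ∧
    ∀ i ∈ Icc 1 (n - 1), |w (i + 1) - w i| ≤ h * A}

/-- the feasible set of (P) -/
def feasP (n : ℕ) (ρ h A J : ℝ) (wmax : ℕ → ℝ) : Set (ℕ → ℝ) :=
  {w | w ∈ C n h A wmax ∧
    ∀ i ∈ Icc 2 (n - 1), ENNReal.ofReal |delta ρ h J w i| ≤ frac h (w i)}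

/-- the objective of (P) -/
noncomputable def costP (n : ℕ) (h : ℝ) (w : ℕ → ℝ) : ℝ≥0∞ := ∑ i ∈ Icc 2 (n - 1), frac h (w i)

/-- the feasible set of (R), pairs `(w, t)` -/
def feasR (n : ℕ) (ρ h A J : ℝ) (wmax : ℕ → ℝ) : Set ((ℕ → ℝ) × (ℕ → ℝ)) :=
  {x | x.1 ∈ C n h A wmax ∧ ∀ i ∈ Icc 2 (n - 1),
    frac h (x.1 i) ≤ ENNReal.ofReal (x.2 i) ∧ |delta ρ h J x.1 i| ≤ x.2 i}

/-- the objective of (R) -/
noncomputable def costR (n : ℕ) (t : ℕ → ℝ) : ℝ≥0∞ := ∑ i ∈ Icc 2 (n - 1), ENNReal.ofReal (t i)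

/-- the optimal value of (P) -/
noncomputable def valP (n : ℕ) (ρ h A J : ℝ) (wmax : ℕ → ℝ) : ℝ≥0∞ :=
  ⨅ w ∈ feasP n ρ h A J wmax, costP n h w

/-- the optimal value of (R) -/
noncomputable def valR (n : ℕ) (ρ h A J : ℝ) (wmax : ℕ → ℝ) : ℝ≥0∞ :=
  ⨅ x ∈ feasR n ρ h A J wmax, costR n x.2

/-- the relaxation is exact -/
def Exact (n : ℕ) (ρ h A J : ℝ) (wmax : ℕ → ℝ) : Prop :=
  valR n ρ h A J wmax = valP n ρ h A J wmax ∧
    ∀ x ∈ feasR n ρ h A J wmax, costR n x.2 = valR n ρ h A J wmax →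
      x.1 ∈ feasP n ρ h A J wmax ∧ costP n h x.1 = valP n ρ h A J wmax

/-- the upper bounds of the instance: `1` at the middle index, `100` elsewhere -/
def bd (i : ℕ) : ℝ := if i = 121 then 1 else 100

/-- a tangent line of `1 / √x` -/
theorem tangent {x r : ℝ} (hx : 0 < x) (hr : 0 ≤ r) : 3 * r - r ^ 3 * x ≤ 2 * (1 / √x) := by
  obtain ⟨s, hs, rfl⟩ : ∃ s : ℝ, 0 < s ∧ x = s ^ 2 :=
    ⟨√x, Real.sqrt_pos.2 hx, (Real.sq_sqrt hx.le).symm⟩
  rw [Real.sqrt_sq hs.le, mul_one_div, le_div_iff₀ hs]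
  have h2 : 0 ≤ r * s := by positivity
  nlinarith [mul_nonneg (sq_nonneg (r * s - 1)) (by linarith : (0 : ℝ) ≤ r * s + 2)]

theorem chain {u : ℕ → ℝ} (h1 : ∀ k, 1 ≤ k → k < 120 → |u (k + 1) - u k| ≤ 1) (h2 : u 120 = 0)
    {k : ℕ} (hk1 : 1 ≤ k) (hk2 : k < 120) (hpos : 0 < u k) :
    ((aI k : ℤ) : ℝ) - bI k * u 1 ≤ 10 ^ 15 * (2 * (1 / √(u k))) := by
  have hup : ∀ j, 1 ≤ j → j ≤ 120 → u j ≤ u 1 + (j - 1) := by
    intro j hj
    induction j, hj using Nat.le_induction with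
    | base => intro _; simp
    | succ j hj ih =>
      intro hj2
      have a1 := ih (by omega)
      have a2 := (abs_le.1 (h1 j hj (by omega))).2
      push_cast
      linarith
  have hdown : ∀ d, d < 120 → u (120 - d) ≤ d := by
    intro d
    induction d with
    | zero => intro _; simp [h2]
    | succ d ih =>
      intro hd
      have a1 := ih (by omega)
      have a2 := (abs_le.1 (h1 (120 - (d + 1)) (by omega) (by omega))).1
      rw [show 120 - (d + 1) + 1 = 120 - d by omega] at a2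
      rw [Nat.cast_add, Nat.cast_one]
      linarith
  unfold aI bI
  rw [if_neg (by omega : k ≠ 0), if_neg (by omega : k ≠ 0)]
  have hR : (0 : ℝ) ≤ (R k : ℝ) := by
    unfold R; positivity
  by_cases h59 : k ≤ 59
  · rw [if_pos h59, if_pos h59]
    have t1 := tangent hpos (r := (R k : ℝ) / 10 ^ 5) (by positivity)
    have t2 := hup k hk1 (by omega)
    have e1 : (10 : ℝ) ^ 15 * (3 * ((R k : ℝ) / 10 ^ 5) - ((R k : ℝ) / 10 ^ 5) ^ 3 * u k) =
        3 * R k * 10 ^ 10 - (R k : ℝ) ^ 3 * u k := by ring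
    have t3 : (3 * R k * 10 ^ 10 - (R k : ℝ) ^ 3 * u k) ≤ 10 ^ 15 * (2 * (1 / √(u k))) := by
      rw [← e1]
      exact mul_le_mul_of_nonneg_left t1 (by positivity)
    have t4 : (R k : ℝ) ^ 3 * u k ≤ (R k : ℝ) ^ 3 * (u 1 + (k - 1)) :=
      mul_le_mul_of_nonneg_left t2 (by positivity)
    push_cast
    nlinarith
  · rw [if_neg h59, if_neg h59]
    obtain ⟨q1, q2⟩ := chk5 k hk2 (by omega)
    have q1' : (0 : ℝ) ≤ (Q k : ℝ) := by exact_mod_cast q1
    have q2' : (Q k : ℝ) ^ 2 * (120 - k) ≤ 10 ^ 10 := by exact_mod_cast q2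
    have t2 := hdown (120 - k) (by omega)
    rw [show 120 - (120 - k) = k by omega] at t2
    have t2' : u k ≤ 120 - k := by
      rw [Nat.cast_sub (by omega)] at t2
      exact_mod_cast t2
    have hs : 0 < √(u k) := Real.sqrt_pos.2 hpos
    have h5 : (Q k : ℝ) * √(u k) ≤ 10 ^ 5 := by
      refine le_of_sq_le_sq ?_ (by positivity)
      rw [mul_pow, Real.sq_sqrt hpos.le]
      calc (Q k : ℝ) ^ 2 * u k ≤ (Q k : ℝ) ^ 2 * (120 - k) :=
            mul_le_mul_of_nonneg_left t2' (by positivity)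
        _ ≤ 10 ^ 10 := q2'
        _ = (10 ^ 5) ^ 2 := by norm_num
    have h6 : (Q k : ℝ) / 10 ^ 5 ≤ 1 / √(u k) := by
      rw [div_le_div_iff₀ (by positivity) hs]
      linarith
    push_cast
    nlinarith

theorem centre {ρ x W : ℝ} (hρ : 0 < ρ) (hx : 0 < x) (hx1 : x ≤ 1)
    (h1 : W ≤ (2 + ρ) * x + 17 / 10 * (1 / √x)) (h2 : W ≤ 2 * x + 2) : W ≤ 37 / 10 + ρ := by
  obtain ⟨s, hs, rfl⟩ : ∃ s : ℝ, 0 < s ∧ x = s ^ 2 :=
    ⟨√x, Real.sqrt_pos.2 hx, (Real.sq_sqrt hx.le).symm⟩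
  rw [Real.sqrt_sq hs.le] at h1
  have hs1 : s ≤ 1 := by nlinarith
  rcases le_total s (92 / 100) with h | h
  · nlinarith
  · have h3 : 1 / s ≤ 1 + (1 - s) * 2 := by
      rw [div_le_iff₀ hs]
      nlinarith
    nlinarith [mul_nonneg hρ.le (by nlinarith : (0 : ℝ) ≤ 1 - s ^ 2), sq_nonneg (1 - s)]

/-- the lower bound for (P) -/
noncomputable def LL : ℝ := ((sumA : ℝ) * 10 ^ 6 - sumP * 3700001) / (2 * 10 ^ 21)

theorem lowP {h ρ : ℝ} (hh : 0 < h) (hρ : 0 < ρ) (hρ' : ρ ≤ 1 / 10 ^ 6) {w : ℕ → ℝ}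
    (hw : w ∈ feasP 241 ρ h (1 / h) (17 / (10 * h ^ 2)) bd) :
    ENNReal.ofReal (h * LL) ≤ costP 241 h w := by
  obtain ⟨⟨w1, w2, w3, w4⟩, w5⟩ := hw
  have hA : h * (1 / h) = 1 := by field_simp
  rw [hA] at w4
  simp only [mem_Icc, show 241 - 1 = 240 from rfl] at w3 w4 w5
  by_cases hz : ∃ i ∈ Icc 2 (241 - 1), w i = 0
  · obtain ⟨i, hi, hi0⟩ := hz
    have : costP 241 h w = ⊤ := by
      unfold costP
      rw [ENNReal.sum_eq_top]
      exact ⟨i, hi, by unfold frac; rw [if_pos hi0]⟩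
    rw [this]
    exact le_top
  push Not at hz
  have hpos : ∀ i, 2 ≤ i → i ≤ 240 → 0 < w i := fun i h1 h2 =>
    lt_of_le_of_ne (w3 i ⟨h1, h2⟩).1 (Ne.symm (hz i (mem_Icc.2 ⟨h1, h2⟩)))
  -- the middle index
  have hx1 : w 121 ≤ 1 := by
    have := (w3 121 ⟨by norm_num, by norm_num⟩).2
    unfold bd at this
    rwa [if_pos rfl] at this
  have hx0 := hpos 121 (by norm_num) (by norm_num)
  have hW : w 120 + w 122 ≤ 37 / 10 + ρ := by
    have c1 := w5 121 ⟨by norm_num, by norm_num⟩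
    unfold frac at c1
    rw [if_neg hx0.ne', ENNReal.ofReal_le_ofReal_iff (by positivity)] at c1
    have c2 := (le_abs_self _).trans c1
    unfold delta at c2
    have hJ : h * (17 / (10 * h ^ 2)) = 17 / (10 * h) := by field_simp
    rw [hJ, show 121 - 1 = 120 from rfl, show 121 + 1 = 122 from rfl, div_le_iff₀ (by positivity)] at c2
    have e : h / √(w 121) * (17 / (10 * h)) = 17 / 10 * (1 / √(w 121)) := by
      have : √(w 121) ≠ 0 := (Real.sqrt_pos.2 hx0).ne'
      field_simp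
    rw [e] at c2
    refine centre hρ hx0 hx1 (by linarith) ?_
    have d1 := (abs_le.1 (w4 120 ⟨by norm_num, by norm_num⟩)).1
    have d2 := (abs_le.1 (w4 121 ⟨by norm_num, by norm_num⟩)).2
    norm_num at d1 d2
    linarith
  -- termwise bounds
  have hterm : ∀ i ∈ Icc 2 (241 - 1), ((aI (idx i) : ℤ) : ℝ) - bP i * w 122 - bM i * w 120 ≤
      10 ^ 15 * (2 * (1 / √(w i))) := by
    intro i hi
    simp only [mem_Icc, show 241 - 1 = 240 from rfl] at hi
    rcases lt_trichotomy i 121 with h1 | h1 | h1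
    · obtain ⟨k, hk⟩ : ∃ k, k = 121 - i := ⟨_, rfl⟩
      have hidx : idx i = k := by unfold idx; omega
      have hb1 : bP i = 0 := by unfold bP; rw [if_neg (by omega)]
      have hb2 : bM i = bI k := by unfold bM; rw [if_pos h1, hidx]
      have := chain (u := fun k => w (121 - k)) (k := k) (by
        intro j hj1 hj2
        have d := w4 (121 - (j + 1)) ⟨by omega, by omega⟩
        rw [show 121 - (j + 1) + 1 = 121 - j by omega, abs_sub_comm] at d
        exact d) (by simpa using w1) (by omega) (by omega) (by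
          show 0 < w (121 - k)
          exact hpos _ (by omega) (by omega))
      rw [hidx, hb1, hb2]
      have e : w (121 - k) = w i := by rw [show 121 - k = i by omega]
      simp only [e] at this
      norm_num at this ⊢
      linarith
    · subst h1
      have hb1 : bP 121 = 0 := by unfold bP; rw [if_neg (by omega)]
      have hb2 : bM 121 = 0 := by unfold bM; rw [if_neg (by omega)]
      have hidx : idx 121 = 0 := by unfold idx; omega
      rw [hb1, hb2, hidx]
      unfold aI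
      rw [if_pos rfl]
      have hs : 0 < √(w 121) := Real.sqrt_pos.2 hx0
      have hs1 : √(w 121) ≤ 1 := (Real.sqrt_le_sqrt hx1).trans (by simp)
      have : 1 ≤ 1 / √(w 121) := by rw [le_div_iff₀ hs]; linarith
      push_cast
      linarith
    · obtain ⟨k, hk⟩ : ∃ k, k = i - 121 := ⟨_, rfl⟩
      have hidx : idx i = k := by unfold idx; omega
      have hb1 : bM i = 0 := by unfold bM; rw [if_neg (by omega)]
      have hb2 : bP i = bI k := by unfold bP; rw [if_pos h1, hidx]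
      have := chain (u := fun k => w (121 + k)) (k := k) (by
        intro j hj1 hj2
        have d := w4 (121 + j) ⟨by omega, by omega⟩
        exact d) (by simpa using w2) (by omega) (by omega) (by
          show 0 < w (121 + k)
          exact hpos _ (by omega) (by omega))
      rw [hidx, hb1, hb2]
      have e : w (121 + k) = w i := by rw [show 121 + k = i by omega]
      simp only [e] at this
      norm_num at this ⊢
      linarith
  have hsum := Finset.sum_le_sum hterm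
  rw [Finset.sum_sub_distrib, Finset.sum_sub_distrib, ← Finset.sum_mul, ← Finset.sum_mul,
    ← Finset.mul_sum, ← Finset.mul_sum] at hsum
  have eA : (∑ i ∈ Icc 2 (241 - 1), ((aI (idx i) : ℤ) : ℝ)) = (sumA : ℝ) := by
    unfold sumA; push_cast; rfl
  have eP : (∑ i ∈ Icc 2 (241 - 1), ((bP i : ℤ) : ℝ)) = (sumP : ℝ) := by
    unfold sumP; push_cast; rfl
  have eM : (∑ i ∈ Icc 2 (241 - 1), ((bM i : ℤ) : ℝ)) = (sumP : ℝ) := by
    rw [sum_eq.1]; unfold sumM; push_cast; rfl
  rw [eA, eP, eM] at hsum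
  have hPpos : (0 : ℝ) < sumP := by exact_mod_cast sum_eq.2
  have hfin : LL ≤ ∑ i ∈ Icc 2 (241 - 1), 1 / √(w i) := by
    unfold LL
    rw [div_le_iff₀ (by positivity)]
    have : (sumP : ℝ) * (w 120 + w 122) ≤ sumP * (3700001 / 10 ^ 6) :=
      mul_le_mul_of_nonneg_left (by linarith) hPpos.le
    nlinarith
  have hcost : costP 241 h w = ENNReal.ofReal (h * ∑ i ∈ Icc 2 (241 - 1), 1 / √(w i)) := by
    unfold costP
    rw [Finset.mul_sum, ENNReal.ofReal_sum_of_nonneg (fun i _ => by positivity)]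
    refine Finset.sum_congr rfl fun i hi => ?_
    unfold frac
    rw [if_neg (hz i hi)]
    congr 1
    ring
  rw [hcost]
  exact ENNReal.ofReal_le_ofReal (mul_le_mul_of_nonneg_left hfin hh.le)

/-- the feasible point of (R) -/
noncomputable def wR (i : ℕ) : ℝ := (V (idx i) : ℝ) / 10 ^ 6

noncomputable def tR (h : ℝ) (i : ℕ) : ℝ := h * ((T (idx i) : ℝ) / 10 ^ 6)

theorem jerk_bound {ρ a b v t : ℝ} (hρ : 0 < ρ) (hρ' : ρ ≤ 1 / 10 ^ 6) (hv : 0 ≤ v)
    (h1 : 10 * (a + b - 2 * v) ≤ 17 * t) (h2 : 10 * (2 * v - a - b + v / 10 ^ 6) ≤ 17 * t) :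
    |a - (2 + ρ) * v + b| ≤ 17 / 10 * t := by
  have h3 : ρ * v ≤ v / 10 ^ 6 := by
    have := mul_le_mul_of_nonneg_right hρ' hv
    linarith
  have h4 : 0 ≤ ρ * v := by positivity
  rw [abs_le]
  constructor <;> nlinarith

theorem memR {h ρ : ℝ} (hh : 0 < h) (hρ : 0 < ρ) (hρ' : ρ ≤ 1 / 10 ^ 6) :
    (wR, tR h) ∈ feasR 241 ρ h (1 / h) (17 / (10 * h ^ 2)) bd := by
  have hA : h * (1 / h) = 1 := by field_simp
  have hJ : h * (17 / (10 * h ^ 2)) = 17 / (10 * h) := by field_simp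
  have hVn : ∀ k, (0 : ℝ) ≤ (V k : ℝ) := fun k => by exact_mod_cast V_nonneg k
  refine ⟨⟨?_, ?_, ?_, ?_⟩, ?_⟩
  · show wR 1 = 0
    unfold wR
    rw [show idx 1 = 120 from rfl, V_last]
    simp
  · show wR 241 = 0
    unfold wR
    rw [show idx 241 = 120 from rfl, V_last]
    simp
  · intro i hi
    simp only [mem_Icc, show 241 - 1 = 240 from rfl] at hi
    refine ⟨div_nonneg (hVn _) (by positivity), ?_⟩
    show wR i ≤ bd i
    unfold wR bd
    rw [div_le_iff₀ (by positivity)]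
    split_ifs with h1
    · subst h1
      rw [show idx 121 = 0 from rfl, V_zero]
      norm_num
    · have := (chk1 (idx i) (by unfold idx; omega)).2.2.1
      exact_mod_cast this
  · intro i hi
    simp only [mem_Icc, show 241 - 1 = 240 from rfl] at hi
    rw [hA]
    show |wR (i + 1) - wR i| ≤ 1
    unfold wR
    rw [← sub_div, abs_div, abs_of_pos (by positivity : (0 : ℝ) < 10 ^ 6), div_le_iff₀ (by positivity),
      one_mul]
    rcases lt_or_ge i 121 with h1 | h1
    · obtain ⟨k, hk⟩ : ∃ k, k = idx (i + 1) := ⟨_, rfl⟩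
      have e : idx i = k + 1 := by rw [hk]; unfold idx; omega
      obtain ⟨c1, c2⟩ := chk2 k (by rw [hk]; unfold idx; omega)
      rw [← hk, e, abs_le]
      have c1' : (V (k + 1) : ℝ) - V k ≤ 10 ^ 6 := by exact_mod_cast c1
      have c2' : (V k : ℝ) - V (k + 1) ≤ 10 ^ 6 := by exact_mod_cast c2
      constructor <;> linarith
    · obtain ⟨k, hk⟩ : ∃ k, k = idx i := ⟨_, rfl⟩
      have e : idx (i + 1) = k + 1 := by rw [hk]; unfold idx; omega
      obtain ⟨c1, c2⟩ := chk2 k (by rw [hk]; unfold idx; omega)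
      rw [← hk, e, abs_le]
      have c1' : (V (k + 1) : ℝ) - V k ≤ 10 ^ 6 := by exact_mod_cast c1
      have c2' : (V k : ℝ) - V (k + 1) ≤ 10 ^ 6 := by exact_mod_cast c2
      constructor <;> linarith
  · intro i hi
    simp only [mem_Icc, show 241 - 1 = 240 from rfl] at hi
    obtain ⟨k, hk⟩ : ∃ k, k = idx i := ⟨_, rfl⟩
    have hk120 : k < 120 := by rw [hk]; unfold idx; omega
    obtain ⟨a1, a2, _, a4⟩ := chk1 k hk120
    have a1' : (0 : ℝ) < (T k : ℝ) := by exact_mod_cast a1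
    have a2' : (0 : ℝ) < (V k : ℝ) := by exact_mod_cast a2
    have a4' : (10 : ℝ) ^ 18 ≤ (T k : ℝ) ^ 2 * V k := by exact_mod_cast a4
    constructor
    · show frac h (wR i) ≤ ENNReal.ofReal (tR h i)
      unfold frac wR tR
      rw [← hk, if_neg (by positivity)]
      refine ENNReal.ofReal_le_ofReal ?_
      rw [div_eq_mul_one_div]
      refine mul_le_mul_of_nonneg_left ?_ hh.le
      have hs : 0 < √((V k : ℝ) / 10 ^ 6) := Real.sqrt_pos.2 (by positivity)
      rw [div_le_iff₀ hs]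
      refine le_of_sq_le_sq ?_ (by positivity)
      rw [mul_pow, Real.sq_sqrt (by positivity)]
      have : ((T k : ℝ) / 10 ^ 6) ^ 2 * ((V k : ℝ) / 10 ^ 6) = (T k : ℝ) ^ 2 * V k / 10 ^ 18 := by ring
      rw [this, one_pow, le_div_iff₀ (by positivity)]
      linarith
    · show |delta ρ h (17 / (10 * h ^ 2)) wR i| ≤ tR h i
      have key : |wR (i - 1) - (2 + ρ) * wR i + wR (i + 1)| ≤ 17 / 10 * ((T k : ℝ) / 10 ^ 6) := by
        rcases Nat.eq_zero_or_pos k with h0 | h0
        · have hi : i = 121 := by rw [hk] at h0; unfold idx at h0; omega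
          subst hi
          have e1 : idx (121 - 1) = 1 := rfl
          have e2 : idx (121 + 1) = 1 := rfl
          have e3 : idx 121 = 0 := rfl
          unfold wR
          rw [e1, e2, e3, h0]
          obtain ⟨c1, c2⟩ := chk3
          have c1' : 10 * ((V 1 : ℝ) + V 1 - 2 * V 0) ≤ 17 * T 0 := by exact_mod_cast c1
          have c2' : 10 * (10 ^ 6 * (2 * (V 0 : ℝ) - V 1 - V 1) + V 0) ≤ 17 * 10 ^ 6 * T 0 := by
            exact_mod_cast c2
          refine jerk_bound hρ hρ' (div_nonneg (hVn 0) (by positivity)) ?_ ?_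
          · linarith
          · linarith
        · obtain ⟨j, hj⟩ : ∃ j, k = j + 1 := ⟨k - 1, by omega⟩
          have hn : (idx (i - 1) = j ∧ idx (i + 1) = j + 2) ∨
              (idx (i - 1) = j + 2 ∧ idx (i + 1) = j) := by
            rw [hk] at hj h0
            unfold idx at hj h0 ⊢
            omega
          obtain ⟨c1, c2⟩ := chk4 j (by omega)
          have c1' : 10 * ((V j : ℝ) + V (j + 2) - 2 * V (j + 1)) ≤ 17 * T (j + 1) := by
            exact_mod_cast c1
          have c2' : 10 * (10 ^ 6 * (2 * (V (j + 1) : ℝ) - V j - V (j + 2)) + V (j + 1)) ≤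
              17 * 10 ^ 6 * T (j + 1) := by exact_mod_cast c2
          unfold wR
          rw [← hk, hj]
          rcases hn with ⟨n1, n2⟩ | ⟨n1, n2⟩
          · rw [n1, n2]
            refine jerk_bound hρ hρ' (div_nonneg (hVn _) (by positivity)) ?_ ?_
            · linarith
            · linarith
          · rw [n1, n2]
            refine jerk_bound hρ hρ' (div_nonneg (hVn _) (by positivity)) ?_ ?_
            · linarith
            · linarith
      unfold delta tR
      rw [hJ, abs_div, abs_of_pos (by positivity : (0 : ℝ) < 17 / (10 * h)), div_le_iff₀ (by positivity),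
        ← hk]
      refine key.trans (le_of_eq ?_)
      field_simp

theorem costR_eq {h : ℝ} (hh : 0 < h) :
    costR 241 (tR h) = ENNReal.ofReal (h * ((sumT : ℝ) / 10 ^ 6)) := by
  unfold costR
  rw [← ENNReal.ofReal_sum_of_nonneg]
  · congr 1
    unfold tR sumT
    push_cast
    rw [← Finset.mul_sum, ← Finset.sum_div]
  · intro i hi
    simp only [mem_Icc, show 241 - 1 = 240 from rfl] at hi
    have a1 := (chk1 (idx i) (by unfold idx; omega)).1
    have a1' : (0 : ℝ) < (T (idx i) : ℝ) := by exact_mod_cast a1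
    unfold tR
    positivity

/-- **Main theorem.** For all `h > 0` and `0 < ρ ≤ 10^(-6)` there is an instance with this step and
this `ρ` (with `n = 241`) for which the optimal value of the relaxation (R) is smaller than the
optimal value of (P); in particular (R) is not exact. -/
theorem result :
    (∀ h ρ : ℝ, 0 < h → 0 < ρ → ρ ≤ 1 / 10 ^ 6 → ∃ (A J : ℝ) (wmax : ℕ → ℝ), 0 < A ∧ 0 < J ∧
      (∀ i, 0 < wmax i) ∧ valR 241 ρ h A J wmax < valP 241 ρ h A J wmax ∧
      ¬ Exact 241 ρ h A J wmax) ∧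
    ¬ ∀ (n : ℕ) (h ρ A J : ℝ) (wmax : ℕ → ℝ), 3 ≤ n → 0 < h → 0 < ρ → 0 < A → 0 < J →
      (∀ i ∈ Icc 2 (n - 1), 0 < wmax i) → Exact n ρ h A J wmax := by
  have main : ∀ h ρ : ℝ, 0 < h → 0 < ρ → ρ ≤ 1 / 10 ^ 6 → ∃ (A J : ℝ) (wmax : ℕ → ℝ), 0 < A ∧ 0 < J ∧
      (∀ i, 0 < wmax i) ∧ valR 241 ρ h A J wmax < valP 241 ρ h A J wmax ∧
      ¬ Exact 241 ρ h A J wmax := by
    intro h ρ hh hρ hρ'
    have hlt : valR 241 ρ h (1 / h) (17 / (10 * h ^ 2)) bd < valP 241 ρ h (1 / h) (17 / (10 * h ^ 2)) bd := by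
      have h1 : valR 241 ρ h (1 / h) (17 / (10 * h ^ 2)) bd ≤ costR 241 (tR h) :=
        iInf₂_le (f := fun (x : (ℕ → ℝ) × (ℕ → ℝ)) _ => costR 241 x.2) (wR, tR h) (memR hh hρ hρ')
      have h2 : ENNReal.ofReal (h * LL) ≤ valP 241 ρ h (1 / h) (17 / (10 * h ^ 2)) bd :=
        le_iInf₂ fun w hw => lowP hh hρ hρ' hw
      refine (h1.trans_lt ?_).trans_le h2
      rw [costR_eq hh]
      have hg : ((2 * 10 ^ 9 * sumT * 10 ^ 6 : ℤ) : ℝ) < ((sumA * 10 ^ 6 - sumP * 3700001 : ℤ) : ℝ) := by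
        exact_mod_cast gap
      push_cast at hg
      have hT : (sumT : ℝ) / 10 ^ 6 < LL := by
        unfold LL
        rw [div_lt_div_iff₀ (by positivity) (by positivity)]
        nlinarith
      have hT0 : (0 : ℝ) < sumT := by
        have : (0 : ℤ) < sumT := by decide +kernel
        exact_mod_cast this
      rw [ENNReal.ofReal_lt_ofReal_iff (by
        have : 0 < LL := lt_trans (by positivity) hT
        positivity)]
      exact mul_lt_mul_of_pos_left hT hh
    refine ⟨1 / h, 17 / (10 * h ^ 2), bd, by positivity, by positivity, ?_, hlt, ?_⟩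
    · intro i
      unfold bd
      split_ifs <;> norm_num
    · intro hE
      exact hlt.ne hE.1
  refine ⟨main, fun hall => ?_⟩
  obtain ⟨A, J, wmax, hA, hJ, hw, _, hn⟩ := main 1 (1 / 10 ^ 6) one_pos (by positivity) le_rfl
  exact hn (hall 241 1 (1 / 10 ^ 6) A J wmax (by norm_num) one_pos (by positivity) hA hJ
    (fun i _ => hw i))

end Pool.Agent.Results.MP_6d6828_an.RelaxationNotExact
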